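import Mathlib

/-!
A three-dimensional algebra with no finite basis of identities, over every infinite field.
-/

set_option autoImplicit false

open Polynomial

namespace Pool.Agent.Results.MP_c03fb1_al.InfinitelyBased3

universe u

/-- `f` is an identity of the (nonassociative) `K`-algebra `A`: it vanishes under every substitution
of elements of `A` for the variables. -/
def IsIdentity (K : Type u) [Field K] (A : Type u) [NonUnitalNonAssocRing A] [Module K A]
    [IsScalarTower K A A] [SMulCommClass K A A] (f : FreeNonUnitalNonAssocAlgebra K ℕ) : Prop :=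
  ∀ v : ℕ → A, FreeNonUnitalNonAssocAlgebra.lift K v f = 0

/-- `A` is finitely based: there is a finite set `S` of identities of `A` such that every identity
of `A` holds in every `K`-algebra satisfying all the identities in `S`. -/
def FinitelyBased (K : Type u) [Field K] (A : Type u) [NonUnitalNonAssocRing A] [Module K A]
    [IsScalarTower K A A] [SMulCommClass K A A] : Prop :=
  ∃ S : Set (FreeNonUnitalNonAssocAlgebra K ℕ), S.Finite ∧ (∀ f ∈ S, IsIdentity K A f) ∧
    ∀ g : FreeNonUnitalNonAssocAlgebra K ℕ, IsIdentity K A g →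
      ∀ (B : Type u) [NonUnitalNonAssocRing B] [Module K B] [IsScalarTower K B B]
        [SMulCommClass K B B], (∀ f ∈ S, IsIdentity K B f) → IsIdentity K B g

/-- The algebra `C³` with the product `(a,s,c)(a',s',c') = (a c', a c' + s a', 0)`. On the standard
basis: `e₁e₃ = e₁ + e₂`, `e₂e₁ = e₂`, and all other products of basis elements are `0`. -/
@[ext] structure R3 (C : Type u) where
  /-- first coordinate -/
  a : C
  /-- second coordinate -/
  s : C
  /-- third coordinate -/
  c : C

namespace R3

variable {C : Type u}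

/-- The underlying triple. -/
def toProd : R3 C ≃ C × C × C where
  toFun x := (x.a, x.s, x.c)
  invFun x := ⟨x.1, x.2.1, x.2.2⟩
  left_inv _ := rfl
  right_inv _ := rfl

instance [AddCommGroup C] : AddCommGroup (R3 C) := toProd.addCommGroup

variable [CommRing C]

instance {K : Type u} [Field K] [Algebra K C] : Module K (R3 C) := toProd.module K

@[simp] theorem zero_a : (0 : R3 C).a = 0 := rfl
@[simp] theorem zero_s : (0 : R3 C).s = 0 := rfl
@[simp] theorem zero_c : (0 : R3 C).c = 0 := rfl
@[simp] theorem add_a (x y : R3 C) : (x + y).a = x.a + y.a := rfl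
@[simp] theorem add_s (x y : R3 C) : (x + y).s = x.s + y.s := rfl
@[simp] theorem add_c (x y : R3 C) : (x + y).c = x.c + y.c := rfl
@[simp] theorem smul_a {K : Type u} [Field K] [Algebra K C] (k : K) (x : R3 C) :
    (k • x).a = k • x.a := rfl
@[simp] theorem smul_s {K : Type u} [Field K] [Algebra K C] (k : K) (x : R3 C) :
    (k • x).s = k • x.s := rfl
@[simp] theorem smul_c {K : Type u} [Field K] [Algebra K C] (k : K) (x : R3 C) :
    (k • x).c = k • x.c := rfl

instance : Mul (R3 C) := ⟨fun x y => ⟨x.a * y.c, x.a * y.c + x.s * y.a, 0⟩⟩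

@[simp] theorem mul_a (x y : R3 C) : (x * y).a = x.a * y.c := rfl
@[simp] theorem mul_s (x y : R3 C) : (x * y).s = x.a * y.c + x.s * y.a := rfl
@[simp] theorem mul_c (x y : R3 C) : (x * y).c = 0 := rfl

instance : NonUnitalNonAssocRing (R3 C) :=
  { (inferInstance : AddCommGroup (R3 C)), (inferInstance : Mul (R3 C)) with
    left_distrib := fun x y z => by ext <;> simp <;> ring
    right_distrib := fun x y z => by ext <;> simp <;> ring
    zero_mul := fun x => by ext <;> simp
    mul_zero := fun x => by ext <;> simp }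

instance {K : Type u} [Field K] [Algebra K C] : IsScalarTower K (R3 C) (R3 C) :=
  ⟨fun k x y => by ext <;> simp [smul_add]⟩

instance {K : Type u} [Field K] [Algebra K C] : SMulCommClass K (R3 C) (R3 C) :=
  ⟨fun k x y => by ext <;> simp [smul_add]⟩

/-- Functoriality in the coefficients. -/
def map {K : Type u} [Field K] [Algebra K C] {D : Type u} [CommRing D] [Algebra K D]
    (φ : C →ₐ[K] D) : R3 C →ₙₐ[K] R3 D where
  toFun x := ⟨φ x.a, φ x.s, φ x.c⟩
  map_smul' k x := by ext <;> simp
  map_zero' := by ext <;> simp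
  map_add' x y := by ext <;> simp
  map_mul' x y := by ext <;> simp

end R3

section general

variable {K : Type u} [Field K]
variable {A : Type u} [NonUnitalNonAssocRing A] [Module K A] [IsScalarTower K A A]
  [SMulCommClass K A A]
variable {B : Type u} [NonUnitalNonAssocRing B] [Module K B] [IsScalarTower K B B]
  [SMulCommClass K B B]

theorem map_lift (φ : A →ₙₐ[K] B) (v : ℕ → A) (f : FreeNonUnitalNonAssocAlgebra K ℕ) :
    φ (FreeNonUnitalNonAssocAlgebra.lift K v f) =
      FreeNonUnitalNonAssocAlgebra.lift K (fun i => φ (v i)) f := by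
  have h : φ.comp (FreeNonUnitalNonAssocAlgebra.lift K v) =
      FreeNonUnitalNonAssocAlgebra.lift K (fun i => φ (v i)) := by
    apply FreeNonUnitalNonAssocAlgebra.hom_ext
    intro i
    simp
  exact DFunLike.congr_fun h f

theorem lift_mon (v : ℕ → A) (m : FreeMagma ℕ) :
    FreeNonUnitalNonAssocAlgebra.lift K v (MonoidAlgebra.ofMagma K _ m) = FreeMagma.lift v m := by
  have h := (MonoidAlgebra.liftMagma K (A := A)).symm_apply_apply (FreeMagma.lift v)
  exact DFunLike.congr_fun h m

/-- Polynomials of degree at most `N`. -/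
noncomputable def Fil (K : Type u) [Field K] (N : ℕ) : Submodule K (FreeNonUnitalNonAssocAlgebra K ℕ) :=
  Submodule.span K ((fun m => MonoidAlgebra.ofMagma K _ m) '' {m : FreeMagma ℕ | m.length ≤ N})

theorem Fil_mono {M N : ℕ} (h : M ≤ N) : Fil K M ≤ Fil K N := by
  apply Submodule.span_mono
  apply Set.image_mono
  intro m hm
  exact le_trans (show m.length ≤ M from hm) h

theorem exists_Fil (f : FreeNonUnitalNonAssocAlgebra K ℕ) : ∃ N, f ∈ Fil K N := by
  induction f using MonoidAlgebra.induction_linear with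
  | zero => exact ⟨0, Submodule.zero_mem _⟩
  | add f g hf hg =>
    obtain ⟨N, hN⟩ := hf
    obtain ⟨M, hM⟩ := hg
    exact ⟨max N M, Submodule.add_mem _ (Fil_mono (le_max_left _ _) hN)
      (Fil_mono (le_max_right _ _) hM)⟩
  | single m r =>
    refine ⟨m.length, ?_⟩
    have h : (MonoidAlgebra.single m r : FreeNonUnitalNonAssocAlgebra K ℕ) =
        r • MonoidAlgebra.ofMagma K _ m := by
      simp
    rw [h]
    exact Submodule.smul_mem _ _ (Submodule.subset_span ⟨m, show m.length ≤ m.length from le_refl _, rfl⟩)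

theorem exists_Fil_finite {S : Set (FreeNonUnitalNonAssocAlgebra K ℕ)} (hS : S.Finite) :
    ∃ N, ∀ f ∈ S, f ∈ Fil K N := by
  induction S, hS using Set.Finite.induction_on with
  | empty => exact ⟨0, by simp⟩
  | insert _ _ ih =>
    rename_i a s _ _
    obtain ⟨N, hN⟩ := ih
    obtain ⟨M, hM⟩ := exists_Fil a
    refine ⟨max M N, ?_⟩
    intro f hf
    rcases Set.mem_insert_iff.mp hf with rfl | hf
    · exact Fil_mono (le_max_left _ _) hM
    · exact Fil_mono (le_max_right _ _) (hN f hf)

theorem eq_on_Fil {W : Type u} [AddCommGroup W] [Module K W] {N : ℕ}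
    (L₁ L₂ : FreeNonUnitalNonAssocAlgebra K ℕ →ₗ[K] W)
    (h : ∀ m : FreeMagma ℕ, m.length ≤ N →
      L₁ (MonoidAlgebra.ofMagma K _ m) = L₂ (MonoidAlgebra.ofMagma K _ m))
    {f : FreeNonUnitalNonAssocAlgebra K ℕ} (hf : f ∈ Fil K N) : L₁ f = L₂ f := by
  apply LinearMap.eqOn_span (s := ((fun m => MonoidAlgebra.ofMagma K _ m) ''
    {m : FreeMagma ℕ | m.length ≤ N})) _ hf
  rintro _ ⟨m, hm, rfl⟩
  exact h m hm

end general

/-- Over an infinite field, identities of `R3 K` hold in `R3 C` for every commutative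
`K`-algebra `C`. -/
theorem ident_ext {K : Type u} [Field K] [Infinite K] {f : FreeNonUnitalNonAssocAlgebra K ℕ}
    (hf : IsIdentity K (R3 K) f) (C : Type u) [CommRing C] [Algebra K C] :
    IsIdentity K (R3 C) f := by
  have h1 : IsIdentity K (R3 (MvPolynomial C K)) f := by
    intro v
    have hx : ∀ x : C → K, R3.map (MvPolynomial.aeval x : MvPolynomial C K →ₐ[K] K)
        (FreeNonUnitalNonAssocAlgebra.lift K v f) = 0 := by
      intro x
      rw [map_lift]
      exact hf _
    ext1
    · apply MvPolynomial.funext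
      intro x
      have := congrArg R3.a (hx x)
      simpa [R3.map, MvPolynomial.aeval_eq_eval] using this
    · apply MvPolynomial.funext
      intro x
      have := congrArg R3.s (hx x)
      simpa [R3.map, MvPolynomial.aeval_eq_eval] using this
    · apply MvPolynomial.funext
      intro x
      have := congrArg R3.c (hx x)
      simpa [R3.map, MvPolynomial.aeval_eq_eval] using this
  intro v
  let φ : MvPolynomial C K →ₐ[K] C := MvPolynomial.aeval (fun c : C => c)
  have hv : v = fun i => R3.map φ (⟨MvPolynomial.X (v i).a, MvPolynomial.X (v i).s,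
      MvPolynomial.X (v i).c⟩ : R3 (MvPolynomial C K)) := by
    funext i
    ext <;> simp [R3.map, φ]
  rw [hv, ← map_lift, h1, map_zero]

/-- The test algebra: basis `e` (coordinate `p`), `b` (`q`), `x` (`r`), `h_i` (coefficients of the
polynomial `h`) and `z`, with nonzero products `e b = h_0`, `h_i e = h_{i+1}`, `x h_n = z`. -/
@[ext] structure TA (K : Type u) [Field K] (n : ℕ) where
  /-- coordinate of `e` -/
  p : K
  /-- coordinate of `b` -/
  q : K
  /-- coordinate of `x` -/
  r : K
  /-- coordinates of the `h_i` -/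
  h : K[X]
  /-- coordinate of `z` -/
  z : K

namespace TA

variable {K : Type u} [Field K] {n : ℕ}

/-- The underlying tuple. -/
def toProd : TA K n ≃ K × K × K × K[X] × K where
  toFun x := (x.p, x.q, x.r, x.h, x.z)
  invFun x := ⟨x.1, x.2.1, x.2.2.1, x.2.2.2.1, x.2.2.2.2⟩
  left_inv _ := rfl
  right_inv _ := rfl

noncomputable instance : AddCommGroup (TA K n) := toProd.addCommGroup
noncomputable instance : Module K (TA K n) := toProd.module K

@[simp] theorem zero_p : (0 : TA K n).p = 0 := rfl
@[simp] theorem zero_q : (0 : TA K n).q = 0 := rfl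
@[simp] theorem zero_r : (0 : TA K n).r = 0 := rfl
@[simp] theorem zero_h : (0 : TA K n).h = 0 := rfl
@[simp] theorem zero_z : (0 : TA K n).z = 0 := rfl
@[simp] theorem add_p (x y : TA K n) : (x + y).p = x.p + y.p := rfl
@[simp] theorem add_q (x y : TA K n) : (x + y).q = x.q + y.q := rfl
@[simp] theorem add_r (x y : TA K n) : (x + y).r = x.r + y.r := rfl
@[simp] theorem add_h (x y : TA K n) : (x + y).h = x.h + y.h := rfl
@[simp] theorem add_z (x y : TA K n) : (x + y).z = x.z + y.z := rfl
@[simp] theorem smul_p (k : K) (x : TA K n) : (k • x).p = k * x.p := rfl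
@[simp] theorem smul_q (k : K) (x : TA K n) : (k • x).q = k * x.q := rfl
@[simp] theorem smul_r (k : K) (x : TA K n) : (k • x).r = k * x.r := rfl
@[simp] theorem smul_h (k : K) (x : TA K n) : (k • x).h = k • x.h := rfl
@[simp] theorem smul_z (k : K) (x : TA K n) : (k • x).z = k * x.z := rfl

noncomputable instance : Mul (TA K n) :=
  ⟨fun x y => ⟨0, 0, 0, C (x.p * y.q) + X * (x.h * C y.p), x.r * y.h.coeff n⟩⟩

@[simp] theorem mul_p (x y : TA K n) : (x * y).p = 0 := rfl
@[simp] theorem mul_q (x y : TA K n) : (x * y).q = 0 := rfl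
@[simp] theorem mul_r (x y : TA K n) : (x * y).r = 0 := rfl
@[simp] theorem mul_h (x y : TA K n) :
    (x * y).h = C (x.p * y.q) + X * (x.h * C y.p) := rfl
@[simp] theorem mul_z (x y : TA K n) : (x * y).z = x.r * y.h.coeff n := rfl

noncomputable instance : NonUnitalNonAssocRing (TA K n) :=
  { (inferInstance : AddCommGroup (TA K n)), (inferInstance : Mul (TA K n)) with
    left_distrib := fun x y z => by
      ext1
      · simp
      · simp
      · simp
      · simp only [mul_h, add_h, add_p, add_q, mul_add, map_add]; ring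
      · simp; ring
    right_distrib := fun x y z => by
      ext1
      · simp
      · simp
      · simp
      · simp only [mul_h, add_h, add_p, add_mul, mul_add, map_add]; ring
      · simp; ring
    zero_mul := fun x => by ext1 <;> simp
    mul_zero := fun x => by ext1 <;> simp }

instance : IsScalarTower K (TA K n) (TA K n) :=
  ⟨fun k x y => by
    ext1
    · simp
    · simp
    · simp
    · simp only [smul_eq_mul, mul_h, smul_h, smul_p, Polynomial.smul_eq_C_mul, map_mul]; ring
    · simp; ring⟩

instance : SMulCommClass K (TA K n) (TA K n) :=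
  ⟨fun k x y => by
    ext1
    · simp
    · simp
    · simp
    · simp only [smul_eq_mul, mul_h, smul_h, smul_p, smul_q, Polynomial.smul_eq_C_mul, map_mul]
      ring
    · simp; ring⟩

/-- First comparison map. -/
noncomputable def Θ₁ : TA K n →ₙₐ[K] R3 (DualNumber K[X]) where
  toFun x := ⟨TrivSqZeroExt.inl (X * C x.p) + TrivSqZeroExt.inr (X * C (x.h.coeff 0)),
    TrivSqZeroExt.inr (X * x.h), TrivSqZeroExt.inr (C x.q)⟩
  map_smul' k x := by
    ext1
    · ext1 <;> simp [Polynomial.smul_eq_C_mul] <;> ring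
    · ext1 <;> simp
    · ext1 <;> simp [Polynomial.smul_eq_C_mul]
  map_zero' := by
    ext1
    · ext1 <;> simp
    · ext1 <;> simp
    · ext1 <;> simp
  map_add' x y := by
    ext1
    · ext1 <;> simp <;> ring
    · ext1 <;> simp <;> ring
    · ext1 <;> simp
  map_mul' x y := by
    ext1
    · ext1 <;> simp <;> ring
    · ext1 <;> simp <;> ring
    · ext1 <;> simp

variable (n) in
/-- Second comparison map. -/
noncomputable def Θ₂ (x : TA K n) : R3 (DualNumber K[X]) :=
  ⟨TrivSqZeroExt.inr x.h, TrivSqZeroExt.inl (C x.r) + TrivSqZeroExt.inr (x.h + C x.z * X ^ n),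
    TrivSqZeroExt.inl (X * C x.p)⟩

section eval

variable (v : ℕ → TA K n)

/-- The evaluation of monomials in the test algebra. -/
noncomputable def evA (m : FreeMagma ℕ) : TA K n := FreeMagma.lift v m

/-- The evaluation of monomials after the second comparison map. -/
noncomputable def evE (m : FreeMagma ℕ) : R3 (DualNumber K[X]) :=
  FreeMagma.lift (fun i => Θ₂ n (v i)) m

theorem evA_mul (m₁ m₂ : FreeMagma ℕ) : evA v (m₁ * m₂) = evA v m₁ * evA v m₂ := rfl

theorem evE_mul (m₁ m₂ : FreeMagma ℕ) : evE v (m₁ * m₂) = evE v m₁ * evE v m₂ := rfl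

theorem inv₁ (m : FreeMagma ℕ) :
    (evE v m).a.fst = 0 ∧ (evE v m).s.fst = C (evA v m).r ∧
    (evE v m).c.fst = X * C (evA v m).p ∧ (evE v m).c.snd = 0 := by
  induction m using FreeMagma.recOnMul with
  | ih1 i => simp [evE, evA, Θ₂]
  | ih2 m₁ m₂ h₁ h₂ =>
    obtain ⟨h11, h12, h13, h14⟩ := h₁
    obtain ⟨h21, h22, h23, h24⟩ := h₂
    rw [evE_mul, evA_mul]
    simp [h11, h12, h13, h14, h21, h22, h23, h24]

theorem inv₂ (m : FreeMagma ℕ) : ∀ j, m.length ≤ j + 1 →
    ((evE v m).a.snd).coeff j = (evA v m).h.coeff j := by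
  induction m using FreeMagma.recOnMul with
  | ih1 i => intro j _; simp [evE, evA, Θ₂]
  | ih2 m₁ m₂ h₁ h₂ =>
    intro j hj
    obtain ⟨h11, h12, h13, h14⟩ := inv₁ v m₁
    obtain ⟨h21, h22, h23, h24⟩ := inv₁ v m₂
    have l1 := m₁.length_pos
    have l2 := m₂.length_pos
    change m₁.length + m₂.length ≤ j + 1 at hj
    obtain ⟨i, rfl⟩ : ∃ i, j = i + 1 := ⟨j - 1, by omega⟩
    have h := h₁ i (by omega)
    rw [evE_mul, evA_mul]
    have e1 : (evE v m₁ * evE v m₂).a.snd = X * ((evE v m₁).a.snd * C (evA v m₂).p) := by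
      simp [h11, h23, h24]
      ring
    rw [e1, mul_h, coeff_X_mul, coeff_mul_C, coeff_add, coeff_C_succ, coeff_X_mul, coeff_mul_C, h,
      zero_add]

theorem inv₃ (m : FreeMagma ℕ) (hm : m.length ≤ n + 2) :
    ((evE v m).s.snd - (evE v m).a.snd).coeff n = (evA v m).z := by
  induction m using FreeMagma.recOnMul with
  | ih1 i => simp [evE, evA, Θ₂]
  | ih2 m₁ m₂ _ _ =>
    obtain ⟨h11, h12, h13, h14⟩ := inv₁ v m₁
    obtain ⟨h21, h22, h23, h24⟩ := inv₁ v m₂
    have l1 := m₁.length_pos
    change m₁.length + m₂.length ≤ n + 2 at hm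
    have h := inv₂ v m₂ n (by omega)
    rw [evE_mul, evA_mul]
    simp [h11, h12, h21, h]

end eval

theorem ident [Infinite K] {f : FreeNonUnitalNonAssocAlgebra K ℕ} (hf : IsIdentity K (R3 K) f)
    (hdeg : f ∈ Fil K (n + 2)) : IsIdentity K (TA K n) f := by
  intro v
  have h1 : Θ₁ (FreeNonUnitalNonAssocAlgebra.lift K v f) = 0 := by
    rw [map_lift]
    exact ident_ext hf _ _
  have h2 : FreeNonUnitalNonAssocAlgebra.lift K (fun i => Θ₂ n (v i)) f = 0 :=
    ident_ext hf _ _
  have hp : X * C (FreeNonUnitalNonAssocAlgebra.lift K v f).p = 0 := by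
    have := congrArg (fun t => t.a.fst) h1
    simpa [Θ₁] using this
  have hq : C (FreeNonUnitalNonAssocAlgebra.lift K v f).q = 0 := by
    have := congrArg (fun t => t.c.snd) h1
    simpa [Θ₁] using this
  have hh : X * (FreeNonUnitalNonAssocAlgebra.lift K v f).h = 0 := by
    have := congrArg (fun t => t.s.snd) h1
    simpa [Θ₁] using this
  have hr : (FreeNonUnitalNonAssocAlgebra.lift K v f).r = 0 := by
    let L₁ : FreeNonUnitalNonAssocAlgebra K ℕ →ₗ[K] K :=
      { toFun := fun g => (FreeNonUnitalNonAssocAlgebra.lift K v g).r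
        map_add' := fun x y => by simp
        map_smul' := fun k x => by simp }
    let L₂ : FreeNonUnitalNonAssocAlgebra K ℕ →ₗ[K] K :=
      { toFun := fun g =>
          ((FreeNonUnitalNonAssocAlgebra.lift K (fun i => Θ₂ n (v i)) g).s.fst).coeff 0
        map_add' := fun x y => by simp
        map_smul' := fun k x => by simp }
    have hL : L₁ f = L₂ f := by
      refine eq_on_Fil L₁ L₂ (fun m _ => ?_) hdeg
      change (FreeNonUnitalNonAssocAlgebra.lift K v (MonoidAlgebra.ofMagma K _ m)).r =
        ((FreeNonUnitalNonAssocAlgebra.lift K (fun i => Θ₂ n (v i))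
          (MonoidAlgebra.ofMagma K _ m)).s.fst).coeff 0
      rw [lift_mon, lift_mon]
      have := (inv₁ v m).2.1
      unfold evE evA at this
      rw [this]
      simp
    change L₁ f = 0
    rw [hL]
    change ((FreeNonUnitalNonAssocAlgebra.lift K (fun i => Θ₂ n (v i)) f).s.fst).coeff 0 = 0
    rw [h2]
    simp
  have hz : (FreeNonUnitalNonAssocAlgebra.lift K v f).z = 0 := by
    let L₁ : FreeNonUnitalNonAssocAlgebra K ℕ →ₗ[K] K :=
      { toFun := fun g => (FreeNonUnitalNonAssocAlgebra.lift K v g).z
        map_add' := fun x y => by simp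
        map_smul' := fun k x => by simp }
    let L₂ : FreeNonUnitalNonAssocAlgebra K ℕ →ₗ[K] K :=
      { toFun := fun g =>
          ((FreeNonUnitalNonAssocAlgebra.lift K (fun i => Θ₂ n (v i)) g).s.snd -
            (FreeNonUnitalNonAssocAlgebra.lift K (fun i => Θ₂ n (v i)) g).a.snd).coeff n
        map_add' := fun x y => by simp; ring
        map_smul' := fun k x => by simp; ring }
    have hL : L₁ f = L₂ f := by
      refine eq_on_Fil L₁ L₂ (fun m hm => ?_) hdeg
      change (FreeNonUnitalNonAssocAlgebra.lift K v (MonoidAlgebra.ofMagma K _ m)).z =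
        ((FreeNonUnitalNonAssocAlgebra.lift K (fun i => Θ₂ n (v i))
          (MonoidAlgebra.ofMagma K _ m)).s.snd -
        (FreeNonUnitalNonAssocAlgebra.lift K (fun i => Θ₂ n (v i))
          (MonoidAlgebra.ofMagma K _ m)).a.snd).coeff n
      rw [lift_mon, lift_mon]
      exact (inv₃ v m hm).symm
    change L₁ f = 0
    rw [hL]
    change ((FreeNonUnitalNonAssocAlgebra.lift K (fun i => Θ₂ n (v i)) f).s.snd -
      (FreeNonUnitalNonAssocAlgebra.lift K (fun i => Θ₂ n (v i)) f).a.snd).coeff n = 0
    rw [h2]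
    simp
  ext1
  · simpa using hp
  · simpa using hq
  · exact hr
  · simpa using hh
  · exact hz

end TA

/-- `u w w ... w` (left-normed, `k` factors `w`). -/
def rp {A : Type u} [Mul A] (x w : A) : ℕ → A
  | 0 => x
  | k + 1 => rp x w k * w

theorem map_rp {K : Type u} [Field K]
    {A : Type u} [NonUnitalNonAssocRing A] [Module K A] [IsScalarTower K A A] [SMulCommClass K A A]
    {B : Type u} [NonUnitalNonAssocRing B] [Module K B] [IsScalarTower K B B] [SMulCommClass K B B]
    (φ : A →ₙₐ[K] B) (x w : A) (k : ℕ) : φ (rp x w k) = rp (φ x) (φ w) k := by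
  induction k with
  | zero => rfl
  | succ k ih => simp [rp, ih]

theorem R3.rp_a {C : Type u} [CommRing C] (x w : R3 C) (k : ℕ) :
    (rp x w k).a = x.a * w.c ^ k := by
  induction k with
  | zero => simp [rp]
  | succ k ih => simp [rp, ih, pow_succ, mul_assoc]

theorem R3.rp_c {C : Type u} [CommRing C] (x w : R3 C) (hx : x.c = 0) (k : ℕ) :
    (rp x w k).c = 0 := by
  cases k with
  | zero => simpa [rp] using hx
  | succ k => simp [rp]

/-- The identity `x((w y) w^n) = x(((w w) y) w^{n-1})`. -/
noncomputable def idn (K : Type u) [Field K] (n : ℕ) : FreeNonUnitalNonAssocAlgebra K ℕ :=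
  FreeNonUnitalNonAssocAlgebra.of K 0 *
    rp (FreeNonUnitalNonAssocAlgebra.of K 1 * FreeNonUnitalNonAssocAlgebra.of K 2)
      (FreeNonUnitalNonAssocAlgebra.of K 1) (n + 1) -
  FreeNonUnitalNonAssocAlgebra.of K 0 *
    rp ((FreeNonUnitalNonAssocAlgebra.of K 1 * FreeNonUnitalNonAssocAlgebra.of K 1) *
      FreeNonUnitalNonAssocAlgebra.of K 2) (FreeNonUnitalNonAssocAlgebra.of K 1) n

theorem lift_idn {K : Type u} [Field K]
    {A : Type u} [NonUnitalNonAssocRing A] [Module K A] [IsScalarTower K A A] [SMulCommClass K A A]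
    (v : ℕ → A) (n : ℕ) :
    FreeNonUnitalNonAssocAlgebra.lift K v (idn K n) =
      v 0 * rp (v 1 * v 2) (v 1) (n + 1) - v 0 * rp ((v 1 * v 1) * v 2) (v 1) n := by
  unfold idn
  simp [map_rp]

theorem idn_R3 {K : Type u} [Field K] (n : ℕ) : IsIdentity K (R3 K) (idn K n) := by
  intro v
  rw [lift_idn, sub_eq_zero]
  have h1 : (rp (v 1 * v 2) (v 1) (n + 1)).c = 0 := R3.rp_c _ _ (by simp) _
  have h2 : (rp ((v 1 * v 1) * v 2) (v 1) n).c = 0 := R3.rp_c _ _ (by simp) _
  ext
  · simp [h1, h2]
  · simp only [R3.mul_s, h1, h2, R3.rp_a, R3.mul_a]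
    ring
  · simp

theorem not_idn_TA {K : Type u} [Field K] (n : ℕ) :
    ¬ IsIdentity K (TA K (n + 1)) (idn K n) := by
  intro h
  let e : TA K (n + 1) := ⟨1, 0, 0, 0, 0⟩
  let b : TA K (n + 1) := ⟨0, 1, 0, 0, 0⟩
  let x : TA K (n + 1) := ⟨0, 0, 1, 0, 0⟩
  have h0 := h (fun i => if i = 0 then x else if i = 1 then e else b)
  rw [lift_idn] at h0
  simp only [if_true, one_ne_zero, if_false, OfNat.ofNat_ne_zero, OfNat.ofNat_ne_one] at h0
  have hee : (e * e) * b = 0 := by
    ext1 <;> simp [e, b]
  have h00 : ∀ k, rp (0 : TA K (n + 1)) e k = 0 := by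
    intro k
    induction k with
    | zero => rfl
    | succ k ih => simp [rp, ih]
  have hX : ∀ k, (rp (e * b) e k).h = X ^ k := by
    intro k
    induction k with
    | zero => simp [rp, e, b]
    | succ k ih =>
      have hp : (rp (e * b) e k).p = 0 := by
        cases k <;> simp [rp]
      simp [rp, ih, hp, e, pow_succ, mul_comm]
  rw [hee, h00, mul_zero, sub_zero] at h0
  have h1 := congrArg TA.z h0
  simp [hX, x] at h1

/-- The three-dimensional algebra `R3 K` has no finite basis of identities when `K` is infinite. -/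
theorem not_fb (K : Type u) [Field K] [Infinite K] : ¬ FinitelyBased K (R3 K) := by
  rintro ⟨S, hfin, hS, hall⟩
  obtain ⟨N, hN⟩ := exists_Fil_finite hfin
  refine not_idn_TA (K := K) N (hall (idn K N) (idn_R3 N) (TA K (N + 1)) ?_)
  intro f hf
  exact TA.ident (hS f hf) (Fil_mono (by omega) (hN f hf))

theorem finrank_R3 (K : Type u) [Field K] : Module.finrank K (R3 K) = 3 := by
  have e : R3 K ≃ₗ[K] (K × K × K) :=
    { toFun := fun x => (x.a, x.s, x.c)
      invFun := fun x => ⟨x.1, x.2.1, x.2.2⟩
      left_inv := fun _ => rfl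
      right_inv := fun _ => rfl
      map_add' := fun _ _ => rfl
      map_smul' := fun _ _ => rfl }
  rw [e.finrank_eq]
  simp

/-- **Three-dimensional algebras with no finite basis of identities.** Over every infinite field
`K` the three-dimensional `K`-algebra with basis `e₁, e₂, e₃` and nonzero products
`e₁e₃ = e₁ + e₂`, `e₂e₁ = e₂` has no finite basis of identities. -/
theorem result (K : Type u) [Field K] [Infinite K] :
    Module.finrank K (R3 K) = 3 ∧ ¬ FinitelyBased K (R3 K) :=
  ⟨finrank_R3 K, not_fb K⟩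

end Pool.Agent.Results.MP_c03fb1_al.InfinitelyBased3
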